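import Pool.Agent.Helper80.EC_F.Goals

/-! Packet FINT of MP_ecc237_nt, Part F. -/

set_option autoImplicit false

open MeasureTheory Filter Topology Set

namespace EC237.PF.PkFINT

theorem tprod_mem {f : ℕ → ℝ} (h0 : ∀ n, 0 ≤ f n) (h1 : ∀ n, f n ≤ 1) :
    0 ≤ ∏' n, f n ∧ ∏' n, f n ≤ 1 := by
  by_cases hm : Multipliable f
  · have h := hm.hasProd.tendsto_prod_nat
    exact ⟨ge_of_tendsto' h fun n => Finset.prod_nonneg fun i _ => h0 i,
      le_of_tendsto' h fun n => Finset.prod_le_one (fun i _ => h0 i) fun i _ => h1 i⟩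
  · rw [tprod_eq_one_of_not_multipliable hm]
    exact ⟨zero_le_one, le_refl _⟩

theorem one_sub_exp {x : ℝ} (hx : 0 ≤ x) : 0 ≤ 1 - Real.exp (-x) ∧ 1 - Real.exp (-x) ≤ 1 := by
  have h1 : Real.exp (-x) ≤ 1 := Real.exp_le_one_iff.2 (by linarith)
  have h2 := Real.exp_pos (-x)
  constructor <;> linarith

theorem ff_bound {y : ℝ} (hy : 0 < y) : 0 ≤ ff y ∧ ff y ≤ Real.exp (-(2 * Real.pi * y)) := by
  have hpi := Real.pi_pos
  have h := tprod_mem (f := fun n : ℕ => ((1 - Real.exp (-(2 * Real.pi * ((n:ℝ) + 1) * y))) *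
               (1 - Real.exp (-(4 * Real.pi * ((n:ℝ) + 1) * y))) *
               (1 - Real.exp (-(6 * Real.pi * ((n:ℝ) + 1) * y))) *
               (1 - Real.exp (-(12 * Real.pi * ((n:ℝ) + 1) * y)))) ^ 2)
    (fun n => sq_nonneg _) (fun n => by
      have hn : (0:ℝ) ≤ (n:ℝ) + 1 := by positivity
      obtain ⟨a1, a2⟩ := one_sub_exp (x := 2 * Real.pi * ((n:ℝ) + 1) * y) (by positivity)
      obtain ⟨b1, b2⟩ := one_sub_exp (x := 4 * Real.pi * ((n:ℝ) + 1) * y) (by positivity)
      obtain ⟨c1, c2⟩ := one_sub_exp (x := 6 * Real.pi * ((n:ℝ) + 1) * y) (by positivity)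
      obtain ⟨d1, d2⟩ := one_sub_exp (x := 12 * Real.pi * ((n:ℝ) + 1) * y) (by positivity)
      exact pow_le_one₀ (mul_nonneg (mul_nonneg (mul_nonneg a1 b1) c1) d1)
        (mul_le_one₀ (mul_le_one₀ (mul_le_one₀ a2 b1 b2) c1 c2) d1 d2))
  unfold ff
  have he := Real.exp_pos (-(2 * Real.pi * y))
  exact ⟨mul_nonneg he.le h.1, mul_le_of_le_one_right he.le h.2⟩

theorem summ_pow {r : ℝ} (h0 : 0 ≤ r) (h1 : r < 1) :
    Summable fun p : ℕ × ℕ => r ^ ((p.1 + 1) * (p.2 + 1)) := by
  have hg := summable_geometric_of_lt_one h0 h1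
  have h := hg.mul_of_nonneg hg (fun n => pow_nonneg h0 n) (fun n => pow_nonneg h0 n)
  refine Summable.of_nonneg_of_le (fun p => pow_nonneg h0 _) (fun p => ?_) h
  rw [← pow_add]
  refine pow_le_pow_of_le_one h0 h1.le ?_
  nlinarith [Nat.zero_le (p.1 * p.2)]

theorem chi_le (m : ℤ) : |chi m| ≤ 1 := by
  unfold chi
  split_ifs <;> simp

theorem aS_cont {r : ℝ} (h1 : r < 1) : ContinuousOn aS (Icc 0 r) := by
  by_cases h0 : 0 ≤ r
  swap
  · rw [Icc_eq_empty h0]
    exact continuousOn_empty _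
  unfold aS
  refine ContinuousOn.add continuousOn_const (ContinuousOn.mul continuousOn_const ?_)
  refine continuousOn_tsum (fun p => ?_) (summ_pow h0 h1) (fun p q hq => ?_)
  · fun_prop
  · rw [Real.norm_eq_abs, abs_mul, abs_pow, abs_of_nonneg hq.1]
    calc |chi ((p.1:ℤ) + 1)| * q ^ ((p.1 + 1) * (p.2 + 1))
        ≤ 1 * q ^ ((p.1 + 1) * (p.2 + 1)) :=
          mul_le_mul_of_nonneg_right (chi_le _) (pow_nonneg hq.1 _)
      _ ≤ r ^ ((p.1 + 1) * (p.2 + 1)) := by
          rw [one_mul]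
          exact pow_le_pow_left₀ hq.1 hq.2 _

theorem aS_exp_cont {c : ℝ} (hc : 0 < c) :
    ContinuousOn (fun y : ℝ => aS (Real.exp (-(c * y)))) (Ioi 0) := by
  intro y hy
  have hy' : (0:ℝ) < y := hy
  have hr : Real.exp (-(c * (y / 2))) < 1 := by
    rw [Real.exp_lt_one_iff]
    have := mul_pos hc (half_pos hy')
    linarith
  have h1 : ContinuousAt (fun y : ℝ => aS (Real.exp (-(c * y)))) y := by
    have hin : Real.exp (-(c * y)) ∈ Ioo 0 (Real.exp (-(c * (y / 2)))) := by
      refine ⟨Real.exp_pos _, Real.exp_lt_exp.2 ?_⟩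
      have := mul_pos hc (half_pos hy')
      linarith
    have h2 : ContinuousAt aS (Real.exp (-(c * y))) :=
      (aS_cont hr).continuousAt (Icc_mem_nhds hin.1 hin.2)
    have h3 : ContinuousAt (fun y : ℝ => Real.exp (-(c * y))) y := by fun_prop
    exact ContinuousAt.comp (f := fun y : ℝ => Real.exp (-(c * y))) h2 h3
  exact h1.continuousWithinAt

theorem ff_cont (h1 : C17) : ContinuousOn ff (Ioi 0) := by
  have hpi := Real.pi_pos
  have a1 := aS_exp_cont (c := 4 * Real.pi) (by positivity)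
  have a2 := aS_exp_cont (c := 2 * Real.pi) (by positivity)
  have h : ContinuousOn (fun y : ℝ =>
      (4 * aS (Real.exp (-(4 * Real.pi * y))) ^ 2 - aS (Real.exp (-(2 * Real.pi * y))) ^ 2) *
      (aS (Real.exp (-(2 * Real.pi * y))) ^ 2 - aS (Real.exp (-(4 * Real.pi * y))) ^ 2) / 36)
      (Ioi 0) :=
    (((continuousOn_const.mul (a1.pow 2)).sub (a2.pow 2)).mul
      ((a2.pow 2).sub (a1.pow 2))).div_const 36
  exact h.congr fun y hy => h1 y hy

theorem ff_small (h2 : C20f) {y : ℝ} (hy : 0 < y) : ff y / y ^ 2 ≤ 20 := by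
  have hpi := Real.pi_gt_three
  have h1 := h2 y hy
  have h3 := (ff_bound (y := 1 / (6 * y)) (by positivity)).2
  have h4 : Real.exp (-(2 * Real.pi * (1 / (6 * y)))) ≤ 720 * y ^ 6 := by
    have h5 : (1 / y) ^ 6 / (Nat.factorial 6 : ℝ) ≤ Real.exp (1 / y) :=
      Real.pow_div_factorial_le_exp (1 / y) (by positivity) 6
    have h6 : Real.exp (-(2 * Real.pi * (1 / (6 * y)))) ≤ Real.exp (-(1 / y)) := by
      refine Real.exp_le_exp.2 (neg_le_neg ?_)
      rw [show 2 * Real.pi * (1 / (6 * y)) = (Real.pi / 3) * (1 / y) by field_simp; ring]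
      have : 0 < 1 / y := by positivity
      nlinarith
    refine h6.trans ?_
    rw [Real.exp_neg]
    have h7 : (0:ℝ) < (1 / y) ^ 6 / 720 := by positivity
    have h8 : (1 / y) ^ 6 / 720 ≤ Real.exp (1 / y) := by
      have : (Nat.factorial 6 : ℝ) = 720 := by norm_num [Nat.factorial]
      rwa [this] at h5
    refine (inv_anti₀ h7 h8).trans (le_of_eq ?_)
    field_simp
  rw [h1] at h3
  have h9 := h3.trans h4
  rw [div_le_iff₀ (by positivity)]
  have h10 : 36 * y ^ 4 * ff y ≤ 36 * y ^ 4 * (20 * y ^ 2) := by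
    refine h9.trans (le_of_eq ?_)
    ring
  exact le_of_mul_le_mul_left h10 (by positivity)

theorem thm (h1 : C17) (h2 : C20f) : G_FINT := by
  have hpi := Real.pi_gt_three
  have hcont : ContinuousOn (fun y => ff y / y ^ 2) (Ioi 0) := by
    refine (ff_cont h1).div (by fun_prop) ?_
    intro y hy
    exact pow_ne_zero 2 (ne_of_gt hy)
  refine ⟨?_, ?_⟩
  · rw [← Ioc_union_Ioi_eq_Ioi (zero_le_one (α := ℝ)), integrableOn_union]
    constructor
    · have hc : IntegrableOn (fun _ : ℝ => (20:ℝ)) (Ioc 0 1) := by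
        rw [integrableOn_const_iff]
        right
        simp
      refine Integrable.mono' hc ?_ ?_
      · exact (hcont.mono fun y hy => hy.1).aestronglyMeasurable measurableSet_Ioc
      · refine (ae_restrict_iff' measurableSet_Ioc).2 (Eventually.of_forall fun y hy => ?_)
        have hy0 : 0 < y := hy.1
        rw [Real.norm_eq_abs, abs_of_nonneg (div_nonneg (ff_bound hy0).1 (by positivity))]
        exact ff_small h2 hy0
    · have hexp : IntegrableOn (fun y : ℝ => Real.exp (-(1:ℝ) * y)) (Ioi 1) :=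
        exp_neg_integrableOn_Ioi 1 one_pos
      refine Integrable.mono' hexp ?_ ?_
      · exact (hcont.mono fun y (hy : 1 < y) => lt_trans one_pos hy).aestronglyMeasurable
          measurableSet_Ioi
      · refine (ae_restrict_iff' measurableSet_Ioi).2 (Eventually.of_forall fun y hy => ?_)
        have hy1 : 1 < y := hy
        have hy0 : 0 < y := by linarith
        have hb := ff_bound hy0
        rw [Real.norm_eq_abs, abs_of_nonneg (div_nonneg hb.1 (by positivity))]
        calc ff y / y ^ 2 ≤ ff y / 1 := by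
              refine div_le_div_of_nonneg_left hb.1 one_pos ?_
              nlinarith
          _ ≤ Real.exp (-(2 * Real.pi * y)) := by rw [div_one]; exact hb.2
          _ ≤ Real.exp (-(1:ℝ) * y) := by
              refine Real.exp_le_exp.2 ?_
              nlinarith
  · have e1 := integral_comp_rpow_Ioi (fun y : ℝ => ff y / y ^ 2) (p := -1) (by norm_num)
    rw [← e1]
    have e2 : ∫ x in Ioi (0:ℝ), (|(-1:ℝ)| * x ^ ((-1:ℝ) - 1)) • (ff (x ^ (-1:ℝ)) / (x ^ (-1:ℝ)) ^ 2) =
        ∫ x in Ioi (0:ℝ), ff (1 / x) := by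
      refine setIntegral_congr_fun measurableSet_Ioi fun x hx => ?_
      have hx0 : (0:ℝ) < x := hx
      show (|(-1:ℝ)| * x ^ ((-1:ℝ) - 1)) • (ff (x ^ (-1:ℝ)) / (x ^ (-1:ℝ)) ^ 2) = ff (1 / x)
      have h3 : x ^ (-1:ℝ) = 1 / x := by rw [Real.rpow_neg_one, one_div]
      have h4 : x ^ ((-1:ℝ) - 1) = 1 / x ^ 2 := by
        rw [show (-1:ℝ) - 1 = -(2:ℕ) by norm_num, Real.rpow_neg hx0.le, Real.rpow_natCast, one_div]
      rw [h3, h4, smul_eq_mul]
      norm_num
      field_simp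
    have e3 := integral_comp_mul_left_Ioi (fun x : ℝ => ff (1 / x)) 0 (b := 6) (by norm_num)
    have e4 : ∫ x in Ioi (0:ℝ), ff (1 / (6 * x)) = 36 * ∫ x in Ioi (0:ℝ), ff x * x ^ 4 := by
      rw [← integral_const_mul]
      refine setIntegral_congr_fun measurableSet_Ioi fun x hx => ?_
      show ff (1 / (6 * x)) = 36 * (ff x * x ^ 4)
      rw [h2 x hx]
      ring
    rw [e2]
    rw [mul_zero, smul_eq_mul, e4] at e3
    linarith

end EC237.PF.PkFINT
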